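import Pool.Agent.W581.HQ.Stm

set_option autoImplicit false

namespace Pool.Agent.W924.HQ

open MeasureTheory Set Filter Topology
open Pool.Agent.W581.HQ

theorem main : S_TC := by
  intro p φ h t ht hK
  have hp := h.p1
  have hp0 : 0 < p := by linarith
  have hd0 : Differentiable ℝ φ := h.sm.differentiable (by norm_num)
  have hc1 : ContDiff ℝ 1 (deriv φ) := by
    have h2 : ContDiff ℝ (1 + 1) φ := by
      have := h.sm
      norm_num
      exact this
    exact (contDiff_succ_iff_deriv.1 h2).2.2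
  have hd1 : Differentiable ℝ (deriv φ) := hc1.differentiable (by norm_num)
  have hc2 : Continuous (deriv (deriv φ)) := hc1.continuous_deriv (by norm_num)
  have hmono : Monotone (deriv φ) := by
    have := h.cv.monotoneOn_deriv (fun x _ => hd0 x)
    exact monotoneOn_univ.1 this
  have h2nn : ∀ x, 0 ≤ deriv (deriv φ) x := by
    intro x
    exact hmono.deriv_nonneg
  have hKd : ∀ x, HasDerivAt (KK p φ) ((p * x + p - 2) * deriv (deriv φ) x) x := by
    intro x
    have e1 : HasDerivAt (fun x : ℝ => p * x + p - 2) p x := by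
      have := (((hasDerivAt_id x).const_mul p).add_const p).sub_const 2
      simpa using this
    have e2 := (e1.mul (hd1 x).hasDerivAt).sub ((hd0 x).hasDerivAt.const_mul p)
    refine e2.congr_deriv ?_
    ring
  have hKc : Continuous (KK p φ) := continuous_iff_continuousAt.2 fun x => (hKd x).continuousAt
  set m0 : ℝ := (2 - p) / p with hm0
  have hm1 : p * m0 = 2 - p := by rw [hm0]; field_simp
  have hm2 : -1 < m0 := by nlinarith
  have hup : MonotoneOn (KK p φ) (Ici m0) := by
    apply monotoneOn_of_deriv_nonneg (convex_Ici m0) hKc.continuousOn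
      (fun x _ => (hKd x).differentiableAt.differentiableWithinAt)
    intro x hx
    rw [interior_Ici, mem_Ioi] at hx
    rw [(hKd x).deriv]
    exact mul_nonneg (by nlinarith) (h2nn x)
  have hdn : AntitoneOn (KK p φ) (Iic m0) := by
    apply antitoneOn_of_deriv_nonpos (convex_Iic m0) hKc.continuousOn
      (fun x _ => (hKd x).differentiableAt.differentiableWithinAt)
    intro x hx
    rw [interior_Iic, mem_Iio] at hx
    rw [(hKd x).deriv]
    exact mul_nonpos_of_nonpos_of_nonneg (by nlinarith) (h2nn x)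
  have hKm1 : KK p φ (-1) ≤ 0 := by
    have := h.a0 (-1) ⟨le_rfl, by norm_num⟩
    unfold KK
    linarith
  have hKlow : ∀ x, -1 ≤ x → x ≤ m0 → KK p φ x ≤ 0 := fun x h1 h2 =>
    (hdn (mem_Iic.2 hm2.le) (mem_Iic.2 h2) h1).trans hKm1
  have htm : m0 < t := by
    by_contra hcon
    push Not at hcon
    have := hKlow t ht.1 hcon
    linarith
  set Z : Set ℝ := {x | x ∈ Icc m0 t ∧ KK p φ x ≤ 0} with hZ
  have hZc : IsClosed Z := isClosed_Icc.inter (isClosed_le hKc continuous_const)
  have hZn : Z.Nonempty := ⟨m0, ⟨le_rfl, htm.le⟩, hKlow m0 hm2.le le_rfl⟩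
  have hZb : BddAbove Z := ⟨t, fun x hx => hx.1.2⟩
  have hmem : sSup Z ∈ Z := hZc.csSup_mem hZn hZb
  set tc := sSup Z with htc
  obtain ⟨⟨c1, c2⟩, c3⟩ := hmem
  have c4 : tc < t := lt_of_le_of_ne c2 (fun h => by rw [h] at c3; linarith)
  have c5 : ∀ x, tc < x → 0 < KK p φ x := by
    intro x hx
    by_cases hxt : x ≤ t
    · by_contra hcon
      push Not at hcon
      have := le_csSup hZb (show x ∈ Z from ⟨⟨by linarith, hxt⟩, hcon⟩)
      linarith
    · push Not at hxt
      have := hup (mem_Ici.2 htm.le) (mem_Ici.2 (htm.le.trans hxt.le)) hxt.le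
      linarith
  have c6 : 0 ≤ KK p φ tc := by
    have h1 : IsClosed {x | 0 ≤ KK p φ x} := isClosed_le continuous_const hKc
    have h2 : Ioi tc ⊆ {x | 0 ≤ KK p φ x} := fun x hx => (c5 x hx).le
    have h3 := closure_minimal h2 h1
    rw [closure_Ioi] at h3
    exact h3 (mem_Ici.2 le_rfl)
  have c7 : ∀ x ∈ Ioo tc 1, KK p φ x ^ 2 ≤
      ((p - 1) * (1 + x) ^ 2 * (p * φ x - 2 * x * deriv φ x) + 2 * x * (1 + x) * KK p φ x)
        * deriv (deriv φ) x := fun x hx =>
    h.rc x ⟨by linarith [hx.1], hx.2⟩ (c5 x hx.1)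
  have htc1 : tc < 1 := lt_of_lt_of_le c4 ht.2
  have c8 : KK p φ 1 ^ 2 ≤
      ((p - 1) * (1 + 1) ^ 2 * (p * φ 1 - 2 * 1 * deriv φ 1) + 2 * 1 * (1 + 1) * KK p φ 1)
        * deriv (deriv φ) 1 := by
    have hcφ := hd0.continuous
    have hcd := hd1.continuous
    have h1 : IsClosed {x | KK p φ x ^ 2 ≤
      ((p - 1) * (1 + x) ^ 2 * (p * φ x - 2 * x * deriv φ x) + 2 * x * (1 + x) * KK p φ x)
        * deriv (deriv φ) x} := isClosed_le (by fun_prop) (by fun_prop)
    have h3 := closure_minimal (show Ioo tc 1 ⊆ _ from c7) h1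
    rw [closure_Ioo htc1.ne] at h3
    exact h3 (right_mem_Icc.2 htc1.le)
  refine ⟨tc, ⟨by linarith, htc1, le_antisymm c3 c6, fun x hx => ⟨c5 x hx.1, ?_, ?_⟩⟩, c4⟩
  · have := hx.1
    nlinarith
  · have hKx := c5 x hx.1
    refine lt_of_le_of_ne (h2nn x) (fun h0 => ?_)
    rcases lt_or_eq_of_le hx.2 with h1 | h1
    · have := c7 x ⟨hx.1, h1⟩
      rw [← h0, mul_zero] at this
      nlinarith
    · subst h1
      rw [← h0, mul_zero] at c8
      nlinarith

end Pool.Agent.W924.HQ
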